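import Pool.Agent.H.MP_be29a0_al.B

set_option autoImplicit false
set_option linter.unusedSimpArgs false

namespace Pool.Agent.H.MP_240e45_ag

open Polynomial Pool.Agent.H.MP_be29a0_al

lemma const_of_sq (f g : RatFunc ℂ) (h : g ^ 2 = f ^ 3 + 1) : ∃ c, f = RatFunc.C c := by
  obtain ⟨p, d, w, hd, hco, he, hl⟩ := red (1 : ℂ[X]) f g (by rw [h, map_one])
  have key : p.natDegree = 0 ∧ d.natDegree = 0 ∨ p = 0 := by
    by_cases hp : p = 0
    · exact Or.inr hp
    left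
    by_cases hw : w = 0
    · subst hw
      have h1 : d ∣ p ^ 3 := ⟨-d ^ 5, by linear_combination -he⟩
      have h2 : IsUnit d := (hco.pow_left (m := 3)).isUnit_of_dvd' h1 dvd_rfl
      have h3 : p ∣ d ^ 6 := ⟨-p ^ 2, by linear_combination -he⟩
      have h4 : IsUnit p := (hco.pow_right (n := 6)).isUnit_of_dvd' dvd_rfl h3
      exact ⟨natDegree_eq_zero_of_isUnit h4, natDegree_eq_zero_of_isUnit h2⟩
    obtain ⟨h1, h2, -⟩ := Polynomial.flt_catalan (k := ℂ) (p := 3) (q := 6) (r := 2)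
      (by norm_num) (by norm_num) (by norm_num) (by norm_num) (by norm_num) (by norm_num)
      (by norm_num) hp hd hw hco (u := 1) (v := 1) (w := -1) one_ne_zero
      one_ne_zero (by norm_num) (by simp only [map_one, map_neg]; linear_combination -he)
    exact ⟨h1, h2⟩
  have hd' : algebraMap ℂ[X] (RatFunc ℂ) d ≠ 0 := RatFunc.algebraMap_ne_zero hd
  rcases key with ⟨h1, h2⟩ | rfl
  · rw [eq_C_of_natDegree_eq_zero h1, eq_C_of_natDegree_eq_zero h2] at hl
    rw [eq_C_of_natDegree_eq_zero h2] at hd'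
    rw [RatFunc.algebraMap_C] at hd'
    rw [RatFunc.algebraMap_C, RatFunc.algebraMap_C] at hl
    refine ⟨p.coeff 0 / d.coeff 0 ^ 2, ?_⟩
    rw [map_div₀, map_pow, eq_div_iff (pow_ne_zero _ hd'), hl]
  · refine ⟨0, ?_⟩
    rw [map_zero] at hl ⊢
    exact (mul_eq_zero.mp hl).resolve_right (pow_ne_zero _ hd')

lemma mob1 (f : RatFunc ℂ) (hf : ¬ ∃ c, f = RatFunc.C c)
    (h : (RatFunc.X : RatFunc ℂ) ∈ IntermediateField.adjoin ℂ {f}) :
    ∃ a b c d : ℂ, a * d - b * c ≠ 0 ∧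
      f = (RatFunc.C a * RatFunc.X + RatFunc.C b) / (RatFunc.C c * RatFunc.X + RatFunc.C d) := by
  have ht : IntermediateField.adjoin ℂ {f} = ⊤ := by
    rw [eq_top_iff, ← RatFunc.adjoin_X]
    exact IntermediateField.adjoin_simple_le_iff.mpr h
  have h1 := RatFunc.finrank_eq_max_natDegree f
  rw [ht, IntermediateField.finrank_top] at h1
  have h2 : f.num.natDegree ≤ 1 := by omega
  have h3 : f.denom.natDegree ≤ 1 := by omega
  have e2 := eq_X_add_C_of_natDegree_le_one h2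
  have e3 := eq_X_add_C_of_natDegree_le_one h3
  have e : f = (RatFunc.C (f.num.coeff 1) * RatFunc.X + RatFunc.C (f.num.coeff 0)) /
      (RatFunc.C (f.denom.coeff 1) * RatFunc.X + RatFunc.C (f.denom.coeff 0)) := by
    conv_lhs => rw [← RatFunc.num_div_denom f, e2, e3]
    simp only [map_add, map_mul, RatFunc.algebraMap_C, RatFunc.algebraMap_X]
  have hd : RatFunc.C (f.denom.coeff 1) * RatFunc.X + RatFunc.C (f.denom.coeff 0) ≠ 0 := by
    have := RatFunc.algebraMap_ne_zero f.denom_ne_zero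
    rw [e3] at this
    simpa only [map_add, map_mul, RatFunc.algebraMap_C, RatFunc.algebraMap_X] using this
  refine ⟨_, _, _, _, ?_, e⟩
  intro h0
  apply hf
  generalize f.num.coeff 1 = a at *
  generalize f.num.coeff 0 = b at *
  generalize f.denom.coeff 1 = c at *
  generalize f.denom.coeff 0 = d at *
  have h0' : RatFunc.C a * RatFunc.C d = RatFunc.C b * RatFunc.C c := by
    rw [← map_mul, ← map_mul, sub_eq_zero.mp h0]
  by_cases hc : c = 0
  · subst hc
    have hd0 : RatFunc.C d ≠ 0 := by simpa using hd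
    refine ⟨b / d, ?_⟩
    rw [e, map_div₀, div_eq_div_iff hd hd0]
    simp only [map_zero] at h0' ⊢
    linear_combination RatFunc.X * h0'
  · have hc0 : RatFunc.C c ≠ 0 := by simpa using hc
    refine ⟨a / c, ?_⟩
    rw [e, map_div₀, div_eq_div_iff hd hc0]
    linear_combination -h0'

lemma mob {K : Type} [Field K] [Algebra ℂ K] (x y σ : K) (hxy : y ^ 2 = x ^ 3 + 1)
    (hx : Transcendental ℂ x) (N P Q : ℂ[X]) (hN : N ≠ 0)
    (hσ : σ * aeval x N = aeval x P + aeval x Q * y) (f : RatFunc ℂ)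
    (hf : aeval σ f.num = x * aeval σ f.denom) :
    ∃ a b c d : ℂ, a * d - b * c ≠ 0 ∧
      f = (RatFunc.C a * RatFunc.X + RatFunc.C b) / (RatFunc.C c * RatFunc.X + RatFunc.C d) := by
  have hq : aeval σ f.denom ≠ 0 := by
    intro h0
    rw [h0, mul_zero] at hf
    obtain ⟨a, b, hab⟩ := RatFunc.isCoprime_num_denom f
    have := congrArg (aeval σ) hab
    rw [map_add, map_mul, map_mul, h0, hf] at this
    simp at this
  have hσt : Transcendental ℂ σ := by
    intro ha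
    apply hx
    have h1 : x = aeval σ f.num / aeval σ f.denom := by rw [hf]; field_simp
    have h2 : x ∈ IntermediateField.adjoin ℂ {σ} :=
      (IntermediateField.mem_adjoin_simple_iff _ _).mpr ⟨_, _, h1⟩
    have := IntermediateField.isAlgebraic_adjoin_simple ha.isIntegral
    exact (IntermediateField.isAlgebraic_iff (x := ⟨x, h2⟩)).mp (this.isAlgebraic _)
  have inj : Function.Injective (aeval σ : ℂ[X] →ₐ[ℂ] K) :=
    transcendental_iff_injective.mp hσt
  let θ : RatFunc ℂ →ₐ[ℂ] K := RatFunc.liftAlgHom (aeval σ)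
    (nonZeroDivisors_le_comap_nonZeroDivisors_of_injective _ inj)
  have θi : Function.Injective θ := θ.toRingHom.injective
  have θf : θ f = x := by
    rw [RatFunc.liftAlgHom_apply, hf]; field_simp
  have θX : θ RatFunc.X = σ := by
    rw [RatFunc.liftAlgHom_apply]; simp
  have θp : ∀ r : ℂ[X], θ (aeval f r) = aeval x r := by
    intro r; rw [← θf, aeval_algHom_apply]
  have hfc : ¬ ∃ c, f = RatFunc.C c := by
    rintro ⟨c, rfl⟩
    apply hx
    rw [← θf, ← RatFunc.algebraMap_eq_C, θ.commutes]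
    exact isAlgebraic_algebraMap c
  have xi : ∀ r : ℂ[X], r ≠ 0 → aeval x r ≠ 0 := fun r hr h0 => hx ⟨r, hr, h0⟩
  by_cases hQ : Q = 0
  · subst hQ
    apply mob1 f hfc
    refine (IntermediateField.mem_adjoin_simple_iff _ _).mpr ⟨P, N, θi ?_⟩
    rw [map_div₀, θp, θp, θX, eq_div_iff (xi N hN), hσ]
    simp
  · exfalso
    apply hfc
    apply const_of_sq f ((RatFunc.X * aeval f N - aeval f P) / aeval f Q)
    apply θi
    have : θ ((RatFunc.X * aeval f N - aeval f P) / aeval f Q) = y := by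
      rw [map_div₀, map_sub, map_mul, θp, θp, θp, θX, div_eq_iff (xi Q hQ), hσ]
      ring
    rw [map_pow, this, hxy, map_add, map_pow, θf, map_one]

def RR : Type := QuadraticAlgebra ℂ[X] (X ^ 3 + C 1) 0

noncomputable instance : CommRing RR :=
  inferInstanceAs (CommRing (QuadraticAlgebra ℂ[X] (X ^ 3 + C 1) 0))

noncomputable def ι : ℂ[X] →+* RR :=
  algebraMap ℂ[X] (QuadraticAlgebra ℂ[X] (X ^ 3 + C 1) 0)

noncomputable instance : Algebra ℂ RR := (ι.comp C).toAlgebra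

noncomputable def om : RR := (QuadraticAlgebra.omega : QuadraticAlgebra ℂ[X] (X ^ 3 + C 1) 0)

lemma om_sq : om * om = ι X ^ 3 + 1 := by
  rw [← map_pow, ← map_one ι, ← map_add]
  exact QuadraticAlgebra.omega_mul_omega_eq_mk

lemma rep0 (a b : ℂ[X]) : (⟨a, b⟩ : QuadraticAlgebra ℂ[X] (X ^ 3 + C 1) 0) =
    algebraMap ℂ[X] (QuadraticAlgebra ℂ[X] (X ^ 3 + C 1) 0) a +
      algebraMap ℂ[X] (QuadraticAlgebra ℂ[X] (X ^ 3 + C 1) 0) b * QuadraticAlgebra.omega := by
  ext1 <;> simp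

lemma rep (z : RR) : ∃ P Q : ℂ[X], z = ι P + ι Q * om := by
  obtain ⟨a, b⟩ := z
  exact ⟨a, b, rep0 a b⟩

lemma ι_inj : Function.Injective ι := by
  intro a b h
  exact congrArg QuadraticAlgebra.re h

lemma nm (z : RR) (hz : z ≠ 0) : ∃ N P Q : ℂ[X], N ≠ 0 ∧ z * (ι P + ι Q * om) = ι N := by
  obtain ⟨P, Q, rfl⟩ := rep z
  refine ⟨P ^ 2 - (X ^ 3 + C 1) * Q ^ 2, P, -Q, ?_, ?_⟩
  · intro h
    obtain ⟨rfl, rfl⟩ := aniso 1 P Q (sub_eq_zero.mp h)
    simp at hz
  · simp only [map_sub, map_mul, map_pow, map_add, map_neg, map_one]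
    linear_combination (-(ι Q) ^ 2) * om_sq

instance : Nontrivial RR := ι_inj.nontrivial

instance : NoZeroDivisors RR where
  eq_zero_or_eq_zero_of_mul_eq_zero := by
    intro a b h
    by_contra hn
    push Not at hn
    obtain ⟨N, P, Q, h1, h2⟩ := nm a hn.1
    obtain ⟨N', P', Q', h3, h4⟩ := nm b hn.2
    apply mul_ne_zero h1 h3
    apply ι_inj
    rw [map_mul, ← h2, ← h4, map_zero]
    linear_combination (ι P + ι Q * om) * (ι P' + ι Q' * om) * h

instance : IsDomain RR := NoZeroDivisors.to_isDomain _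

noncomputable def evp (l s : ℂ) (h : s * s = l ^ 3 + 1) : RR →+* ℂ where
  toFun z := (QuadraticAlgebra.re z).eval l + (QuadraticAlgebra.im z).eval l * s
  map_one' := by
    show (1 : ℂ[X]).eval l + (0 : ℂ[X]).eval l * s = 1
    simp
  map_zero' := by
    show (0 : ℂ[X]).eval l + (0 : ℂ[X]).eval l * s = 0
    simp
  map_add' := by
    rintro ⟨a, b⟩ ⟨c, d⟩
    show (a + c).eval l + (b + d).eval l * s = _
    simp only [eval_add]; ring
  map_mul' := by
    rintro ⟨a, b⟩ ⟨c, d⟩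
    show (a * c + (X ^ 3 + C 1) * b * d).eval l + (a * d + b * c + 0 * b * d).eval l * s = _
    simp only [eval_add, eval_mul, eval_pow, eval_X, eval_C, eval_zero]
    linear_combination (-(eval l b * eval l d)) * h

lemma evp_ι (l s : ℂ) (h : s * s = l ^ 3 + 1) (P : ℂ[X]) : evp l s h (ι P) = P.eval l := by
  show P.eval l + (0 : ℂ[X]).eval l * s = _
  simp

lemma evp_om (l s : ℂ) (h : s * s = l ^ 3 + 1) : evp l s h om = s := by
  show (0 : ℂ[X]).eval l + (1 : ℂ[X]).eval l * s = _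
  simp

lemma evp_c (l s : ℂ) (h : s * s = l ^ 3 + 1) (c : ℂ) : evp l s h (algebraMap ℂ RR c) = c := by
  show evp l s h (ι (C c)) = c
  rw [evp_ι, eval_C]

lemma gen (z : RR) (hz : z ≠ 0) : ∃ N : ℂ[X], N ≠ 0 ∧
    ∀ (l s : ℂ) (h : s * s = l ^ 3 + 1), N.eval l ≠ 0 → evp l s h z ≠ 0 := by
  obtain ⟨N, P, Q, h1, h2⟩ := nm z hz
  refine ⟨N, h1, fun l s h hl h0 => hl ?_⟩
  rw [← evp_ι l s h, ← h2, map_mul, h0, zero_mul]

lemma ex_pt (N : ℂ[X]) (hN : N ≠ 0) : ∃ l s : ℂ, s * s = l ^ 3 + 1 ∧ N.eval l ≠ 0 := by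
  have : ∃ l, N.eval l ≠ 0 := by
    by_contra hn
    push Not at hn
    exact hN (Polynomial.funext (by simpa using hn))
  obtain ⟨l, hl⟩ := this
  obtain ⟨s, hs⟩ := IsAlgClosed.exists_eq_mul_self (l ^ 3 + 1)
  exact ⟨l, s, hs.symm, hl⟩

lemma mob2 (τ h : RR) (hh : h ≠ 0) (f : RatFunc ℂ) (D : ℂ[X]) (hD : D ≠ 0)
    (H : ∀ (l s : ℂ) (hs : s * s = l ^ 3 + 1), D.eval l ≠ 0 → evp l s hs h ≠ 0 →
      f.num.eval (evp l s hs τ / evp l s hs h) = l * f.denom.eval (evp l s hs τ / evp l s hs h)) :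
    ∃ a b c d : ℂ, a * d - b * c ≠ 0 ∧
      f = (RatFunc.C a * RatFunc.X + RatFunc.C b) / (RatFunc.C c * RatFunc.X + RatFunc.C d) := by
  let W : RR[X] := f.num.map (algebraMap ℂ RR) - C (ι X) * f.denom.map (algebraMap ℂ RR)
  let ρ : RR := (W.scaleRoots h).eval τ
  have hρ : ∀ (L : Type) [Field L] (ψ : RR →+* L), ψ h ≠ 0 → ψ ρ = ψ h ^ W.natDegree *
      (eval₂ (ψ.comp (algebraMap ℂ RR)) (ψ τ / ψ h) f.num -
        ψ (ι X) * eval₂ (ψ.comp (algebraMap ℂ RR)) (ψ τ / ψ h) f.denom) := by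
    intro L _ ψ h0
    have e1 : ψ ρ = eval₂ ψ (ψ h * (ψ τ / ψ h)) (W.scaleRoots h) := by
      rw [mul_div_cancel₀ _ h0, eval₂_at_apply]
    rw [e1, scaleRoots_eval₂_mul]
    simp only [W, eval₂_sub, eval₂_mul, eval₂_C, eval₂_map]
  have ρ0 : ρ = 0 := by
    by_contra h0
    obtain ⟨N, h1, h2⟩ := gen ρ h0
    obtain ⟨N', h3, h4⟩ := gen h hh
    obtain ⟨l, s, hs, hl⟩ := ex_pt (N * N' * D) (mul_ne_zero (mul_ne_zero h1 h3) hD)
    rw [eval_mul, eval_mul] at hl
    have l1 := left_ne_zero_of_mul (left_ne_zero_of_mul hl)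
    have l2 := right_ne_zero_of_mul (left_ne_zero_of_mul hl)
    have l3 := right_ne_zero_of_mul hl
    apply h2 l s hs l1
    have e : (evp l s hs).comp (algebraMap ℂ RR) = RingHom.id ℂ := RingHom.ext (evp_c l s hs)
    rw [hρ ℂ _ (h4 l s hs l2), e, eval₂_id, eval₂_id, evp_ι, eval_X, H l s hs l3 (h4 l s hs l2),
      sub_self, mul_zero]
  let K := FractionRing RR
  let ψ : RR →+* K := algebraMap RR K
  have ψi : Function.Injective ψ := IsFractionRing.injective RR K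
  have hψ : ψ h ≠ 0 := fun h0 => hh (ψi (by rw [h0, map_zero]))
  have ea : ψ.comp (algebraMap ℂ RR) = algebraMap ℂ K := rfl
  have ψp : ∀ r : ℂ[X], aeval (ψ (ι X)) r = ψ (ι r) := by
    intro r
    have : (aeval (ψ (ι X)) : ℂ[X] →ₐ[ℂ] K).toRingHom = ψ.comp ι := by
      apply Polynomial.ringHom_ext
      · intro a
        simp only [AlgHom.toRingHom_eq_coe, RingHom.coe_coe, aeval_C]
        rfl
      · simp
    exact congrArg (fun φ : ℂ[X] →+* K => φ r) this
  obtain ⟨N, P, Q, h1, h2⟩ := nm h hh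
  obtain ⟨P', Q', h3⟩ := rep (τ * (ι P + ι Q * om))
  apply mob (ψ (ι X)) (ψ om) (ψ τ / ψ h) _ _ N P' Q' h1
  · rw [ψp, ψp, ψp, ← map_mul, ← map_add, ← h3, ← h2, map_mul, map_mul, ← mul_assoc,
      div_mul_cancel₀ _ hψ]
  · have := hρ K ψ hψ
    rw [ρ0, map_zero, ea] at this
    have h5 := (mul_eq_zero.mp this.symm).resolve_left (pow_ne_zero _ hψ)
    rw [aeval_def, aeval_def]
    exact sub_eq_zero.mp h5
  · rw [sq, ← map_mul, om_sq, map_add, map_pow, map_one]
  · rintro ⟨r, hr, h0⟩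
    rw [ψp] at h0
    exact hr (ι_inj (ψi (by rw [h0, map_zero, map_zero])))

end Pool.Agent.H.MP_240e45_ag
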