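import Pool.Agent.H.MP_240e45_ag.A

set_option autoImplicit false
set_option linter.unusedSimpArgs false

namespace Pool.Agent.H.MP_240e45_ag

open Polynomial Matrix Pool.Agent.H.MP_be29a0_al

section ev
variable {k : Type} [Field k] {g : ℕ}

def Dom {R : Type} [Ring R] [Algebra k R] (x : Fin g → R) (s : Ex k g) : Prop := ∃ B, Ev x s B

lemma dom_add {R : Type} [Ring R] [Algebra k R] {x : Fin g → R} {s t : Ex k g} :
    Dom x (Ex.add s t) ↔ Dom x s ∧ Dom x t := by
  constructor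
  · rintro ⟨B, h⟩
    cases h with
    | add h1 h2 => exact ⟨⟨_, h1⟩, ⟨_, h2⟩⟩
  · rintro ⟨⟨a, h1⟩, ⟨b, h2⟩⟩
    exact ⟨_, h1.add h2⟩

lemma dom_inv {R : Type} [Ring R] [Algebra k R] {x : Fin g → R} {s : Ex k g} {a : R}
    (h : Ev x s a) : Dom x (Ex.inv s) ↔ IsUnit a := by
  constructor
  · rintro ⟨B, h⟩
    cases h with
    | inv h1 h2 h3 =>
      rw [h.uniq h1]
      exact ⟨⟨_, _, h2, h3⟩, rfl⟩
  · rintro ⟨u, rfl⟩
    exact ⟨_, h.inv u.mul_inv u.inv_mul⟩

def sub {g' : ℕ} (σ : Fin g → Ex k g') : Ex k g → Ex k g'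
  | Ex.const c => Ex.const c
  | Ex.var i => σ i
  | Ex.add s t => Ex.add (sub σ s) (sub σ t)
  | Ex.mul s t => Ex.mul (sub σ s) (sub σ t)
  | Ex.inv s => Ex.inv (sub σ s)

lemma ev_sub {g' : ℕ} {R : Type} [Ring R] [Algebra k R] (σ : Fin g → Ex k g') {x : Fin g' → R}
    {y : Fin g → R} (hσ : ∀ i, Ev x (σ i) (y i)) {s : Ex k g} {a : R} (h : Ev y s a) :
    Ev x (sub σ s) a := by
  induction h with
  | const c => exact Ev.const c
  | var i => exact hσ i
  | add _ _ i1 i2 => exact Ev.add i1 i2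
  | mul _ _ i1 i2 => exact Ev.mul i1 i2
  | inv _ h1 h2 i1 => exact Ev.inv i1 h1 h2

lemma ex_poly (s : Ex k g) (q : k[X]) : ∃ d : Ex k g, ∀ (R : Type) [Ring R] [Algebra k R]
    (x : Fin g → R) (S : R), Ev x s S → Ev x d (aeval S q) := by
  induction q using Polynomial.induction_on with
  | C a => exact ⟨Ex.const a, fun R _ _ x S _ => by rw [aeval_C]; exact Ev.const a⟩
  | add p q i1 i2 =>
    obtain ⟨d1, h1⟩ := i1
    obtain ⟨d2, h2⟩ := i2
    exact ⟨Ex.add d1 d2, fun R _ _ x S h => by rw [map_add]; exact (h1 R x S h).add (h2 R x S h)⟩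
  | monomial n a i1 =>
    obtain ⟨d1, h1⟩ := i1
    refine ⟨Ex.mul d1 s, fun R _ _ x S h => ?_⟩
    rw [pow_succ, ← mul_assoc, map_mul, aeval_X]
    exact (h1 R x S h).mul h

variable {K : Type} [Field K] [Algebra k K] {m : Type} [Fintype m] [DecidableEq m]

lemma rat2 {R : Type} [CommRing R] [Algebra k R] (Ξ : Fin g → Matrix m m R) (φ : R →+* K)
    (hφ : ∀ c, φ (algebraMap k R c) = algebraMap k K c) {s : Ex k g} {B : Matrix m m K}
    (hB : Ev (fun i => φ.mapMatrix (Ξ i)) s B) :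
    ∃ (h : R) (S : Matrix m m R), φ h ≠ 0 ∧ ∀ ψ : R →+* K,
      (∀ c, ψ (algebraMap k R c) = algebraMap k K c) → ψ h ≠ 0 →
      Ev (fun i => ψ.mapMatrix (Ξ i)) s ((ψ h)⁻¹ • ψ.mapMatrix S) := by
  induction hB with
  | const c =>
    refine ⟨1, (algebraMap k R c) • 1, by simp, fun d hd _ => ?_⟩
    rw [smul_one_map, map_one, inv_one, one_smul, hd, ← alg_eq]
    exact Ev.const c
  | var i =>
    refine ⟨1, Ξ i, by simp, fun d _ _ => ?_⟩
    rw [map_one, inv_one, one_smul]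
    exact Ev.var (x := fun i => d.mapMatrix (Ξ i)) i
  | add _ _ i1 i2 =>
    obtain ⟨h1, S1, n1, e1⟩ := i1
    obtain ⟨h2, S2, n2, e2⟩ := i2
    refine ⟨h1 * h2, h2 • S1 + h1 • S2, by rw [map_mul]; exact mul_ne_zero n1 n2,
      fun d hc hd => ?_⟩
    rw [map_mul] at hd
    have d1 := left_ne_zero_of_mul hd
    have d2 := right_ne_zero_of_mul hd
    convert Ev.add (e1 d hc d1) (e2 d hc d2) using 1
    rw [map_add, smul_map, smul_map, smul_add, smul_smul, smul_smul, map_mul]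
    congr 2 <;> field_simp
  | mul _ _ i1 i2 =>
    obtain ⟨h1, S1, n1, e1⟩ := i1
    obtain ⟨h2, S2, n2, e2⟩ := i2
    refine ⟨h1 * h2, S1 * S2, by rw [map_mul]; exact mul_ne_zero n1 n2, fun d hc hd => ?_⟩
    rw [map_mul] at hd
    have d1 := left_ne_zero_of_mul hd
    have d2 := right_ne_zero_of_mul hd
    convert Ev.mul (e1 d hc d1) (e2 d hc d2) using 1
    rw [map_mul, map_mul, smul_mul_assoc, mul_smul_comm, smul_smul, mul_inv]
  | @inv s a b ha h1 h2 i1 =>
    obtain ⟨h, S, n1, e1⟩ := i1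
    have ea := ha.uniq (e1 φ hφ n1)
    have hdet : φ S.det ≠ 0 := by
      intro h0
      rw [RingHom.map_det] at h0
      have := congrArg det h1
      rw [det_mul, ea, det_smul, h0] at this
      simp at this
    refine ⟨h * S.det, (h * h) • S.adjugate, by rw [map_mul]; exact mul_ne_zero n1 hdet,
      fun d hc hd => ?_⟩
    rw [map_mul] at hd
    have d1 := left_ne_zero_of_mul hd
    have d2 := right_ne_zero_of_mul hd
    have key : ((d h)⁻¹ • d.mapMatrix S) *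
        ((d (h * S.det))⁻¹ • d.mapMatrix ((h * h) • S.adjugate)) = 1 := by
      rw [smul_mul_assoc, mul_smul_comm, ← map_mul, mul_smul_comm, mul_adjugate, smul_smul,
        smul_smul, smul_one_map, smul_smul]
      simp only [map_mul]
      have : (d h)⁻¹ * (d h * d S.det)⁻¹ * (d h * d h * d S.det) = 1 := by field_simp
      rw [this, one_smul]
    exact Ev.inv (e1 d hc d1) key (mul_eq_one_comm.mp key)

lemma join [Infinite K] {g' : ℕ} (F : Fin g → Matrix m m K[X]) (F' : Fin g' → Matrix m m K[X])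
    (c c' : K) {s : Ex k g} {s' : Ex k g'}
    (h : Dom (fun i => (evalRingHom c).mapMatrix (F i)) s)
    (h' : Dom (fun i => (evalRingHom c').mapMatrix (F' i)) s') :
    ∃ d : K, Dom (fun i => (evalRingHom d).mapMatrix (F i)) s ∧
      Dom (fun i => (evalRingHom d).mapMatrix (F' i)) s' := by
  obtain ⟨B, hB⟩ := h
  obtain ⟨B', hB'⟩ := h'
  obtain ⟨h1, S1, n1, e1⟩ := rat F c hB
  obtain ⟨h2, S2, n2, e2⟩ := rat F' c' hB'
  have h3 : h1 * h2 ≠ 0 := mul_ne_zero (by rintro rfl; simp at n1) (by rintro rfl; simp at n2)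
  have : ∃ l, (h1 * h2).eval l ≠ 0 := by
    by_contra hn
    push Not at hn
    exact h3 (Polynomial.funext (fun r => by rw [hn r, eval_zero]))
  obtain ⟨d, hd⟩ := this
  rw [eval_mul] at hd
  exact ⟨d, ⟨_, e1 d (left_ne_zero_of_mul hd)⟩, ⟨_, e2 d (right_ne_zero_of_mul hd)⟩⟩

noncomputable def ln (a b : Matrix m m K) : Matrix m m K[X] :=
  (C : K →+* K[X]).mapMatrix a + (X : K[X]) • (C : K →+* K[X]).mapMatrix (b - a)

lemma evC (c : K) (z : Matrix m m K) :
    (evalRingHom c).mapMatrix ((C : K →+* K[X]).mapMatrix z) = z := by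
  ext i j; simp

lemma ln0 (a b : Matrix m m K) : (evalRingHom (0 : K)).mapMatrix (ln a b) = a := by
  simp only [ln, map_add, smul_map, evC]
  simp

lemma ln1 (a b : Matrix m m K) : (evalRingHom (1 : K)).mapMatrix (ln a b) = b := by
  simp only [ln, map_add, smul_map, evC]
  simp

lemma join1 [Infinite K] {x x' : Fin g → Matrix m m K} {s s' : Ex k g} (h : Dom x s)
    (h' : Dom x' s') : ∃ z : Fin g → Matrix m m K, Dom z s ∧ Dom z s' := by
  obtain ⟨d, h1, h2⟩ := join (fun i => ln (x i) (x' i)) (fun i => ln (x i) (x' i)) 0 1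
    (s := s) (s' := s') (by simp only [ln0]; exact h) (by simp only [ln1]; exact h')
  exact ⟨_, h1, h2⟩

lemma ev_ce (x : Fin 2 → Matrix m m K) : Ev x (ce : Ex k 2) (cc (x 0) (x 1)) := by
  have hx : Ev x (xx : Ex k 2) (x 0) := Ev.var 0
  have hy : Ev x (yy : Ex k 2) (x 1) := Ev.var 1
  exact (hx.mul hy).sub (hy.mul hx)

def pe (u : k) : Ex k 2 := Ex.mul (Ex.inv ce) (ge u)

lemma ev_pe (u : k) (x : Fin 2 → Matrix m m K) (ci : Matrix m m K)
    (h : cc (x 0) (x 1) * ci = 1) : Ev x (pe u) (ci * gg (algebraMap k K u) (x 0) (x 1)) := by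
  have hx : Ev x (xx : Ex k 2) (x 0) := Ev.var 0
  have hy : Ev x (yy : Ex k 2) (x 1) := Ev.var 1
  have hi : Ev x (Ex.inv ce : Ex k 2) ci := (ev_ce x).inv h (mul_eq_one_comm.mp h)
  have hg : Ev x (ge u) (gg (algebraMap k K u) (x 0) (x 1)) := by
    unfold gg
    rw [← alg_eq]
    exact (((hx.mul hx).mul hx).add (Ev.const u)).sub (hy.mul hy)
  exact hi.mul hg

def we (u : k) : Ex k 2 :=
  Ex.add (Ex.inv ce) (Ex.inv (Ex.add (Ex.mul (ee u) (pe u)) (neg (Ex.mul (pe u) (ee u)))))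

lemma dom_we (u : k) (x : Fin 2 → Matrix m m K) : Dom x (we u) ↔
    ∃ ci, cc (x 0) (x 1) * ci = 1 ∧ IsUnit (cc (aa (algebraMap k K u) (x 0) (x 1) ci)
      (ci * gg (algebraMap k K u) (x 0) (x 1))) := by
  rw [we, dom_add, dom_inv (ev_ce x)]
  have key : ∀ ci, cc (x 0) (x 1) * ci = 1 → _ := fun ci h => dom_inv
    (((ev_ee u x ci h).mul (ev_pe u x ci h)).sub ((ev_pe u x ci h).mul (ev_ee u x ci h)))
  constructor
  · rintro ⟨h1, h2⟩
    exact ⟨_, h1.mul_val_inv, (key _ h1.mul_val_inv).mp h2⟩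
  · rintro ⟨ci, h1, h2⟩
    exact ⟨IsUnit.of_mul_eq_one _ h1, (key _ h1).mpr h2⟩

def ze (u : k) : Ex k 3 :=
  Ex.add (Ex.inv (sub ![Ex.var 0, Ex.var 1] ce))
    (Ex.inv (Ex.add (sub ![Ex.var 0, Ex.var 1] (ee u)) (Ex.var 2)))

lemma dom_ze (u : k) (x : Fin 3 → Matrix m m K) : Dom x (ze u) ↔
    ∃ ci, cc (x 0) (x 1) * ci = 1 ∧ IsUnit (aa (algebraMap k K u) (x 0) (x 1) ci + x 2) := by
  have hσ : ∀ i : Fin 2, Ev x ((![Ex.var 0, Ex.var 1] : Fin 2 → Ex k 3) i) (![x 0, x 1] i) := by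
    intro i
    fin_cases i
    · exact Ev.var 0
    · exact Ev.var 1
  rw [ze, dom_add, dom_inv (ev_sub _ hσ (ev_ce _))]
  have key : ∀ ci, cc (x 0) (x 1) * ci = 1 → _ := fun ci h => dom_inv
    ((ev_sub _ hσ (ev_ee u ![x 0, x 1] ci h)).add (Ev.var 2))
  constructor
  · rintro ⟨h1, h2⟩
    exact ⟨_, h1.mul_val_inv, (key _ h1.mul_val_inv).mp h2⟩
  · rintro ⟨ci, h1, h2⟩
    exact ⟨IsUnit.of_mul_eq_one _ h1, (key _ h1).mpr h2⟩

end ev

section ker
variable {R : Type} [CommRing R] {m : Type} [Fintype m] [DecidableEq m]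

def KK (l s : R) (x y : Matrix m m R) (v w : m → R) : Prop :=
  y *ᵥ v = x *ᵥ w - l • w - s • v ∧
    y *ᵥ w = s • w + x *ᵥ (x *ᵥ v) + l • x *ᵥ v + (l * l) • v

lemma kk_iff (l s : R) (x y : Matrix m m R) (v w : m → R) :
    BB l s x y *ᵥ Sum.elim v w = 0 ↔ KK l s x y v w := by
  rw [BB, fromBlocks_mulVec, KK]
  simp only [Sum.elim_comp_inl, Sum.elim_comp_inr, neg_mulVec, add_mulVec, sub_mulVec,
    smul_mulVec, one_mulVec, ← mulVec_mulVec]
  rw [← Sum.elim_zero_zero, Sum.elim_eq_iff]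
  constructor
  · rintro ⟨h1, h2⟩
    exact ⟨by linear_combination (exp := 1) -h1, by linear_combination (exp := 1) h2⟩
  · rintro ⟨h1, h2⟩
    exact ⟨by linear_combination (exp := 1) -h1, by linear_combination (exp := 1) h2⟩

lemma kk_eig {u l s : R} (hs : s * s = l ^ 3 + u) {x y ci : Matrix m m R} {v w : m → R}
    (h : KK l s x y v w) (hc : cc x y * ci = 1) :
    (ci * gg u x y) *ᵥ v = w ∧ aa u x y ci *ᵥ v = l • v := by
  have hc' := mul_eq_one_comm.mp hc
  have h1 : NN u l x y *ᵥ Sum.elim v w = 0 := by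
    have := BB_mul u l s hs x y
    rw [← neg_eq_iff_eq_neg] at this
    rw [← this, neg_mulVec, ← mulVec_mulVec, (kk_iff ..).mpr h, mulVec_zero, neg_zero]
  rw [NN, fromBlocks_mulVec, ← Sum.elim_zero_zero, Sum.elim_eq_iff] at h1
  simp only [Sum.elim_comp_inl, Sum.elim_comp_inr, neg_mulVec, add_mulVec, sub_mulVec,
    smul_mulVec, ← mulVec_mulVec] at h1
  obtain ⟨h1, h2⟩ := h1
  have e1 : gg u x y *ᵥ v = cc x y *ᵥ w := by linear_combination (exp := 1) h1
  have e2 : gg u x y *ᵥ w = x *ᵥ cc x y *ᵥ v + cc x y *ᵥ x *ᵥ v + l • cc x y *ᵥ v := by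
    linear_combination (exp := 1) h2
  have e3 : ∀ t, ci *ᵥ cc x y *ᵥ t = t := by
    intro t; rw [mulVec_mulVec, hc', one_mulVec]
  have e4 : (ci * gg u x y) *ᵥ v = w := by rw [← mulVec_mulVec, e1, e3]
  refine ⟨e4, ?_⟩
  rw [aa, sub_mulVec, sub_mulVec, ← mulVec_mulVec, e4]
  simp only [← mulVec_mulVec, e2, mulVec_add, mulVec_smul, e3]
  abel

def TT (i j : m) (l s : R) (x y : Matrix m m R) : Matrix m m R :=
  (y.updateCol i (x *ᵥ Pi.single j 1 - l • Pi.single j 1 - s • Pi.single i 1)).updateCol j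
    (s • Pi.single j 1 + x *ᵥ (x *ᵥ Pi.single i 1) + l • x *ᵥ Pi.single i 1 +
      (l * l) • Pi.single i 1)

lemma TT_ker {i j : m} (hij : i ≠ j) (l s : R) (x y : Matrix m m R) :
    KK l s x (TT i j l s x y) (Pi.single i 1) (Pi.single j 1) := by
  constructor
  · rw [mulVec_single_one]
    ext a
    rw [col_apply, TT, updateCol_ne hij, updateCol_self]
  · rw [mulVec_single_one (TT i j l s x y)]
    ext a
    rw [col_apply, TT, updateCol_self]

lemma TT_fix {i j : m} {l s : R} {x y : Matrix m m R}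
    (h : KK l s x y (Pi.single i 1) (Pi.single j 1)) : TT i j l s x y = y := by
  rw [TT, ← h.1, ← h.2, mulVec_single_one, mulVec_single_one]
  have : ∀ a, y.updateCol a (y.col a) = y := fun a => updateCol_eq_self y a
  rw [this, this]

lemma TT_map {S : Type} [CommRing S] (φ : R →+* S) (i j : m) (l s : R) (x y : Matrix m m R) :
    φ.mapMatrix (TT i j l s x y) = TT i j (φ l) (φ s) (φ.mapMatrix x) (φ.mapMatrix y) := by
  ext a b
  simp only [TT, RingHom.mapMatrix_apply, map_apply, updateCol_apply, mulVec_single_one,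
    Pi.add_apply, Pi.sub_apply, Pi.smul_apply, smul_eq_mul, col_apply, mulVec, dotProduct,
    Pi.single_apply]
  split_ifs <;> simp

lemma eig_uniq {a : Matrix m m R} {l : R} {i : m}
    (h : IsUnit (a + (single i i 1 - l • (1 : Matrix m m R))))
    (h1 : a *ᵥ Pi.single i 1 = l • Pi.single i 1) {v : m → R} (hv : a *ᵥ v = l • v) :
    v = v i • Pi.single i 1 := by
  apply mulVec_injective_of_isUnit h
  simp only [add_mulVec, sub_mulVec, smul_mulVec, one_mulVec, mulVec_smul, hv, h1]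
  ext b
  by_cases hb : b = i
  · subst hb; simp [single_mulVec]
  · simp [single_mulVec, hb, Matrix.single_apply, Ne.symm hb]

end ker

end Pool.Agent.H.MP_240e45_ag
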