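import Pool.Agent.H.MP_240e45_ag.B

set_option autoImplicit false
set_option linter.unusedSimpArgs false

namespace Pool.Agent.H.MP_240e45_ag

open Polynomial Matrix Pool.Agent.H.MP_be29a0_al

def c' {S : Type} [Ring S] (x y : S) : S := x * y - y * x
def p' {S : Type} [Ring S] (x y ci : S) : S := ci * (x * x * x + 1 - y * y)
def a' {S : Type} [Ring S] (x y ci : S) : S := p' x y ci * p' x y ci - x - ci * x * c' x y

lemma c'_map {S T : Type} [Ring S] [Ring T] (φ : S →+* T) (x y : S) :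
    φ (c' x y) = c' (φ x) (φ y) := by simp only [c', map_sub, map_mul]
lemma p'_map {S T : Type} [Ring S] [Ring T] (φ : S →+* T) (x y ci : S) :
    φ (p' x y ci) = p' (φ x) (φ y) (φ ci) := by simp only [p', map_sub, map_mul, map_add, map_one]
lemma a'_map {S T : Type} [Ring S] [Ring T] (φ : S →+* T) (x y ci : S) :
    φ (a' x y ci) = a' (φ x) (φ y) (φ ci) := by simp only [a', map_sub, map_mul, c'_map, p'_map]

variable {m : Type} [Fintype m] [DecidableEq m]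

lemma pp_eq (x y ci : Matrix m m ℂ) : ci * gg (algebraMap ℂ ℂ 1) x y = p' x y ci := by
  rw [map_one, gg, one_smul, p']
lemma aa_eq (x y ci : Matrix m m ℂ) : aa (algebraMap ℂ ℂ 1) x y ci = a' x y ci := by
  rw [aa, pp_eq]; rfl

def x1 : Matrix (Fin 3) (Fin 3) ℤ := !![0, 1, 0; 0, 0, 0; 1, 0, 0]
def y1 : Matrix (Fin 3) (Fin 3) ℤ := !![0, 0, 1; 0, 1, 1; 0, 0, 0]
def c1 : Matrix (Fin 3) (Fin 3) ℤ := !![0, -1, 0; 1, -1, -1; 0, 0, 1]
def x3 : Matrix (Fin 3) (Fin 3) ℤ := !![0, -1, 0; 1, 0, 0; 0, 1, 0]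
def y3 : Matrix (Fin 3) (Fin 3) ℤ := !![-1, 0, 0; 0, 0, 1; 0, 0, 0]
def c3 : Matrix (Fin 3) (Fin 3) ℤ := !![1, -1, 1; -1, 0, -1; 0, 0, 1]

lemma f1 : c' x1 y1 * c1 = 1 := by decide +kernel
lemma f2 : (a' x1 y1 c1 + single 0 0 1).det ≠ 0 := by decide +kernel
lemma f3 : c' x3 y3 * c3 = 1 := by decide +kernel
lemma f4 : (a' x3 y3 c3).det ≠ 0 := by decide +kernel
lemma f5 : (c' (a' x3 y3 c3) (p' x3 y3 c3)).det ≠ 0 := by decide +kernel

noncomputable def cz : Matrix (Fin 3) (Fin 3) ℤ →+* Matrix (Fin 3) (Fin 3) ℂ :=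
  (Int.castRingHom ℂ).mapMatrix

lemma cz_unit {M : Matrix (Fin 3) (Fin 3) ℤ} (h : M.det ≠ 0) : IsUnit (cz M) := by
  rw [Matrix.isUnit_iff_isUnit_det, cz, ← RingHom.map_det, isUnit_iff_ne_zero]
  simpa using h

lemma blk3 (o : Type) [Fintype o] [DecidableEq o] :
    ∃ Z : Fin 2 → Matrix (Fin 3 × o) (Fin 3 × o) ℂ, Dom Z (we (1 : ℂ)) := by
  let ψ : Matrix (Fin 3) (Fin 3) ℤ →+* Matrix (Fin 3 × o) (Fin 3 × o) ℂ :=
    ((blockDiagonalRingHom (Fin 3) o ℂ).comp (Pi.constRingHom o _)).comp cz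
  refine ⟨![ψ x3, ψ y3], (dom_we _ _).mpr ⟨ψ c3, ?_, ?_⟩⟩
  · show c' (ψ x3) (ψ y3) * ψ c3 = 1
    rw [← c'_map, ← map_mul, f3, map_one]
  · rw [aa_eq, pp_eq]
    show IsUnit (c' (a' (ψ x3) (ψ y3) (ψ c3)) (p' (ψ x3) (ψ y3) (ψ c3)))
    rw [← a'_map, ← p'_map, ← c'_map]
    exact (cz_unit f5).map ((blockDiagonalRingHom (Fin 3) o ℂ).comp (Pi.constRingHom o _))

def Base (m : Type) [Fintype m] [DecidableEq m] (i j : m) : Prop :=
  i ≠ j ∧ ∃ x y : Matrix m m ℂ, KK 0 1 x y (Pi.single i 1) (Pi.single j 1) ∧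
    Dom ![x, y, single i i 1 - (0 : ℂ) • (1 : Matrix m m ℂ)] (ze (1 : ℂ))

lemma blk1 (o : Type) [Fintype o] [DecidableEq o] (t : o) : Base (Fin 3 × o) (0, t) (1, t) := by
  let β := blockDiagonalRingHom (Fin 3) o ℂ
  let x : o → Matrix (Fin 3) (Fin 3) ℂ := fun j => cz (if j = t then x1 else x3)
  let y : o → Matrix (Fin 3) (Fin 3) ℂ := fun j => cz (if j = t then y1 else y3)
  let c : o → Matrix (Fin 3) (Fin 3) ℂ := fun j => cz (if j = t then c1 else c3)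
  let e : o → Matrix (Fin 3) (Fin 3) ℂ := fun j => cz (if j = t then single 0 0 1 else 0)
  refine ⟨by simp, β x, β y, ⟨?_, ?_⟩, (dom_ze _ _).mpr ⟨β c, ?_, ?_⟩⟩
  · ext ⟨a, j⟩
    by_cases hj : j = t
    · subst hj
      fin_cases a <;> simp [β, x, y, cz, x1, y1, blockDiagonal_apply, Pi.single_apply]
    · simp [β, x, y, blockDiagonal_apply, hj, Pi.single_apply]
  · rw [mulVec_mulVec, ← map_mul]
    ext ⟨a, j⟩
    by_cases hj : j = t
    · subst hj
      fin_cases a <;> simp [β, x, y, cz, x1, y1, blockDiagonal_apply, Pi.single_apply,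
        Matrix.mul_apply, Fin.sum_univ_three]
    · simp [β, x, y, blockDiagonal_apply, hj, Pi.single_apply]
  · show c' (β x) (β y) * β c = 1
    rw [← c'_map, ← map_mul, ← map_one β]
    congr 1
    funext j
    show c' (x j) (y j) * c j = 1
    simp only [x, y, c]
    rw [← c'_map, ← map_mul]
    split_ifs
    · rw [f1, map_one]
    · rw [f3, map_one]
  · rw [aa_eq]
    show IsUnit (a' (β x) (β y) (β c) + (single (0, t) (0, t) 1 - (0 : ℂ) • 1))
    have he : single (0, t) (0, t) (1 : ℂ) = β e := by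
      ext ⟨a, j⟩ ⟨b, l⟩
      simp only [β, e, cz, blockDiagonalRingHom_apply, blockDiagonal_apply, Matrix.single_apply,
        RingHom.mapMatrix_apply, map_apply, Prod.mk.injEq]
      by_cases h1 : j = l
      · subst h1
        by_cases h2 : j = t
        · subst h2; simp [Matrix.single_apply]
        · simp [h2, Ne.symm h2]
      · rw [if_neg h1, if_neg]
        rintro ⟨⟨-, rfl⟩, -, rfl⟩
        exact h1 rfl
    rw [zero_smul, sub_zero, he, ← a'_map, ← map_add]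
    apply IsUnit.map
    rw [Pi.isUnit_iff]
    intro j
    show IsUnit (a' (x j) (y j) (c j) + e j)
    simp only [x, y, c, e]
    rw [← a'_map, ← map_add]
    apply cz_unit
    split_ifs
    · exact f2
    · rw [add_zero]; exact f4

lemma dom_map {k : Type} [Field k] {g : ℕ} {R S : Type} [Ring R] [Algebra k R] [Ring S]
    [Algebra k S] (φ : R →+* S) (hφ : ∀ c, φ (algebraMap k R c) = algebraMap k S c)
    {x : Fin g → R} {s : Ex k g} (h : Dom x s) : Dom (fun i => φ (x i)) s :=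
  let ⟨_, h⟩ := h
  ⟨_, h.map φ hφ⟩

lemma Base.equiv {m' : Type} [Fintype m'] [DecidableEq m'] (e : m ≃ m') {i j : m}
    (h : Base m i j) : Base m' (e i) (e j) := by
  obtain ⟨hij, x, y, ⟨k1, k2⟩, hd⟩ := h
  let ρ := reindexAlgEquiv ℂ ℂ e
  have hv : ∀ (z : Matrix m m ℂ) (v : m → ℂ), ρ z *ᵥ (v ∘ e.symm) = (z *ᵥ v) ∘ e.symm := by
    intro z v
    show z.submatrix e.symm e.symm *ᵥ _ = _
    rw [submatrix_mulVec_equiv]
    congr 2
    ext a; simp
  have hs : ∀ a : m, (Pi.single (e a) 1 : m' → ℂ) = (Pi.single a 1 : m → ℂ) ∘ e.symm := by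
    intro a
    ext b
    simp [Pi.single_apply, Equiv.symm_apply_eq]
  refine ⟨fun h => hij (e.injective h), ρ x, ρ y, ⟨?_, ?_⟩, ?_⟩
  · rw [hs, hs, hv, hv, k1]; rfl
  · rw [hs, hs, hv, hv, hv, k2]; rfl
  · convert dom_map ρ.toAlgHom.toRingHom ρ.commutes hd using 1
    funext t
    fin_cases t
    · rfl
    · rfl
    · ext a b
      simp [ρ, Matrix.single_apply, Equiv.eq_symm_apply]

lemma base (n : ℕ) (hn : 0 < n) : ∃ i j, Base (Fin (n * 3)) i j :=
  ⟨_, _, (blk1 (Fin n) ⟨0, hn⟩).equiv ((Equiv.prodComm _ _).trans finProdFinEquiv)⟩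

lemma kerpt [Nonempty m] (Z : Fin 2 → Matrix m m ℂ) (h : Dom Z (we (1 : ℂ))) :
    ∃ l s : ℂ, s * s = l ^ 3 + 1 ∧ ∃ v w : m → ℂ, LinearIndependent ℂ ![v, w] ∧
      KK l s (Z 0) (Z 1) v w := by
  obtain ⟨ci, h1, h2⟩ := (dom_we _ _).mp h
  rw [map_one] at h2
  obtain ⟨l, hl⟩ := IsAlgClosed.exists_root (aa 1 (Z 0) (Z 1) ci).charpoly (by
    rw [charpoly_degree_eq_dim]; simp)
  have hl' : (l • (1 : Matrix m m ℂ) - aa 1 (Z 0) (Z 1) ci).det = 0 := by
    rw [IsRoot, eval_charpoly] at hl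
    rw [← hl]
    congr 2
    ext a b
    by_cases hab : a = b <;> simp [hab]
  have h3 := schur 1 l (Z 0) (Z 1) ci h1
  rw [hl', mul_zero] at h3
  have h4 := (mul_eq_zero.mp h3).resolve_right (left_ne_zero_of_mul_eq_one JJ_sq)
  have key : ∃ s : ℂ, s * s = l ^ 3 + 1 ∧ (BB l s (Z 0) (Z 1)).det = 0 := by
    obtain ⟨s, hs⟩ := IsAlgClosed.exists_eq_mul_self (l ^ 3 + 1)
    have := congrArg det (BB_mul 1 l s hs.symm (Z 0) (Z 1))
    rw [det_mul, det_neg, h4, mul_zero] at this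
    rcases mul_eq_zero.mp this with h | h
    · exact ⟨-s, by rw [hs]; ring, h⟩
    · exact ⟨s, hs.symm, h⟩
  obtain ⟨s, hs, hd⟩ := key
  obtain ⟨u, hu, hu0⟩ := exists_mulVec_eq_zero_iff.mpr hd
  rw [← Sum.elim_comp_inl_inr u] at hu hu0
  have kk := (kk_iff ..).mp hu0
  obtain ⟨e1, e2⟩ := kk_eig hs kk h1
  refine ⟨l, s, hs, _, _, ?_, kk⟩
  have hv : u ∘ Sum.inl ≠ 0 := by
    intro h0
    apply hu
    rw [← e1, h0, mulVec_zero, Sum.elim_zero_zero]
  rw [LinearIndependent.pair_iff' hv]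
  intro c hc
  apply hv
  apply mulVec_injective_of_isUnit h2
  generalize ci * gg 1 (Z 0) (Z 1) = Φ at *
  rw [mulVec_zero, cc, sub_mulVec, ← mulVec_mulVec, ← mulVec_mulVec, e1, e2, mulVec_smul, e1, ← hc,
    mulVec_smul, e2, smul_comm, sub_self]

lemma conj {i j : m} (hij : i ≠ j) {v w : m → ℂ} (h : LinearIndependent ℂ ![v, w]) :
    ∃ P Q : Matrix m m ℂ, P * Q = 1 ∧ Q * P = 1 ∧ P *ᵥ Pi.single i 1 = v ∧
      P *ᵥ Pi.single j 1 = w := by
  have h0 : LinearIndependent ℂ ![(Pi.single i 1 : m → ℂ), Pi.single j 1] := by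
    rw [LinearIndependent.pair_iff]
    intro a b hab
    have h1 := congrFun hab i
    have h2 := congrFun hab j
    simp [hij, Ne.symm hij] at h1 h2
    exact ⟨h1, h2⟩
  have qD {a b : m → ℂ} (hD : LinearIndependent ℂ ![a, b]) :
    hD.linearCombinationEquiv (Finsupp.single 0 1) = a := by simp
  have qD' {a b : m → ℂ} (hD : LinearIndependent ℂ ![a, b]) :
    hD.linearCombinationEquiv (Finsupp.single 1 1) = b := by simp
  let f := h0.linearCombinationEquiv.symm ≪≫ₗ h.linearCombinationEquiv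
  obtain ⟨g, hg⟩ := Submodule.exists_linearEquiv_restrict_eq f
  refine ⟨LinearMap.toMatrix' g.toLinearMap, LinearMap.toMatrix' g.symm.toLinearMap, ?_, ?_, ?_, ?_⟩
  · rw [← LinearMap.toMatrix'_comp]; simp
  · rw [← LinearMap.toMatrix'_comp]; simp
  · rw [LinearMap.toMatrix'_mulVec, ← qD h0, LinearEquiv.coe_coe, ← hg]
    simp [f]
  · rw [LinearMap.toMatrix'_mulVec, ← qD' h0, LinearEquiv.coe_coe, ← hg]
    simp [f]

lemma stdpt {i j : m} (hij : i ≠ j) (s' : Ex ℂ 2) (Z : Fin 2 → Matrix m m ℂ) (h1 : Dom Z s')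
    (h : Dom Z (we (1 : ℂ))) : ∃ l s : ℂ, s * s = l ^ 3 + 1 ∧ ∃ x y : Matrix m m ℂ,
      Dom ![x, y] s' ∧ KK l s x y (Pi.single i 1) (Pi.single j 1) := by
  have : Nonempty m := ⟨i⟩
  obtain ⟨l, s, hs, v, w, hi, k1, k2⟩ := kerpt Z h
  obtain ⟨P, Q, a1, a2, a3, a4⟩ := conj hij hi
  have a5 : ∀ t : Matrix m m ℂ, P * (Q * t) = t := by
    intro t; rw [← mul_assoc, a1, one_mul]
  let φ : Matrix m m ℂ →+* Matrix m m ℂ :=
    { toFun := fun z => Q * z * P
      map_one' := by rw [mul_one, a2]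
      map_zero' := by simp
      map_add' := fun a b => by rw [mul_add, add_mul]
      map_mul' := fun a b => by simp only [mul_assoc, a5] }
  have b1 : Q *ᵥ v = Pi.single i 1 := by rw [← a3, mulVec_mulVec, a2, one_mulVec]
  have b2 : Q *ᵥ w = Pi.single j 1 := by rw [← a4, mulVec_mulVec, a2, one_mulVec]
  have b3 : ∀ t, P *ᵥ Q *ᵥ t = t := by intro t; rw [mulVec_mulVec, a1, one_mulVec]
  refine ⟨l, s, hs, Q * Z 0 * P, Q * Z 1 * P, ?_, ?_, ?_⟩
  · convert dom_map φ (fun c => ?_) h1 using 1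
    · funext t; fin_cases t <;> rfl
    · show Q * _ * P = _
      rw [Algebra.algebraMap_eq_smul_one, mul_smul_comm, smul_mul_assoc, mul_one, a2]
  · simp only [← mulVec_mulVec, a3, a4, k1, mulVec_sub, mulVec_smul, b1, b2]
  · simp only [← mulVec_mulVec, a3, a4, k2, mulVec_add, mulVec_smul, b1, b2, b3]

noncomputable def am : Matrix m m ℂ →+* Matrix m m RR := (algebraMap ℂ RR).mapMatrix

lemma ev_am (l s : ℂ) (h : s * s = l ^ 3 + 1) (z : Matrix m m ℂ) :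
    (evp l s h).mapMatrix (am z) = z := by
  ext a b
  exact evp_c l s h _

lemma ev_TT (i j : m) (l s : ℂ) (h : s * s = l ^ 3 + 1) (x y : Matrix m m ℂ) :
    (evp l s h).mapMatrix (TT i j (ι X) om (am x) (am y)) = TT i j l s x y := by
  rw [TT_map, ev_am, ev_am, evp_ι, eval_X, evp_om]

lemma fam (i j : m) (x y : Matrix m m ℂ)
    (h : Dom ![x, TT i j 0 1 x y, single i i 1 - (0 : ℂ) • (1 : Matrix m m ℂ)] (ze (1 : ℂ))) :
    ∃ N : ℂ[X], N ≠ 0 ∧ ∀ l s : ℂ, s * s = l ^ 3 + 1 → N.eval l ≠ 0 →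
      ∃ ci, cc x (TT i j l s x y) * ci = 1 ∧
        IsUnit (aa 1 x (TT i j l s x y) ci + (single i i 1 - l • (1 : Matrix m m ℂ))) := by
  let Ξ : Fin 3 → Matrix m m RR :=
    ![am x, TT i j (ι X) om (am x) (am y), am (single i i 1) - ι X • (1 : Matrix m m RR)]
  have e : ∀ (l s : ℂ) (h : s * s = l ^ 3 + 1), (fun t => (evp l s h).mapMatrix (Ξ t)) =
      ![x, TT i j l s x y, single i i 1 - l • (1 : Matrix m m ℂ)] := by
    intro l s h
    funext t
    fin_cases t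
    · exact ev_am l s h x
    · exact ev_TT i j l s h x y
    · show (evp l s h).mapMatrix (am (single i i 1) - ι X • (1 : Matrix m m RR)) = _
      rw [map_sub, ev_am, smul_one_map, evp_ι, eval_X]; rfl
  have h01 : (1 : ℂ) * 1 = 0 ^ 3 + 1 := by norm_num
  rw [← e 0 1 h01] at h
  obtain ⟨B, hB⟩ := h
  obtain ⟨r, S, r0, hS⟩ := rat2 Ξ _ (evp_c 0 1 h01) hB
  obtain ⟨N, h1, h2⟩ := gen r (by rintro rfl; simp at r0)
  refine ⟨N, h1, fun l s hs hl => ?_⟩
  have := hS _ (evp_c l s hs) (h2 l s hs hl)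
  rw [e] at this
  have := (dom_ze _ _).mp ⟨_, this⟩
  rw [map_one] at this
  exact this

lemma aeval_vec {S : Matrix m m ℂ} {v : m → ℂ} {c : ℂ} (h : S *ᵥ v = c • v) (r : ℂ[X]) :
    aeval S r *ᵥ v = r.eval c • v := by
  induction r using Polynomial.induction_on with
  | C a => rw [aeval_C, Algebra.algebraMap_eq_smul_one, smul_mulVec, one_mulVec, eval_C]
  | add p q i1 i2 => rw [map_add, add_mulVec, i1, i2, eval_add, add_smul]
  | monomial n a i1 =>
    rw [pow_succ, ← mul_assoc, map_mul, aeval_X, ← mulVec_mulVec, h, mulVec_smul, i1, smul_smul,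
      eval_mul (q := X), eval_X, mul_comm]

lemma nodec {i j : m} (hb : Base m i j) (f : RatFunc ℂ) (s d : Ex ℂ 2)
    (hd : ∀ (x : Fin 2 → Matrix m m ℂ) (S : Matrix m m ℂ), Ev x s S → Ev x d (aeval S f.denom))
    (Z : Fin 2 → Matrix m m ℂ) (h1 : Dom Z (Ex.add s (Ex.inv d)))
    (Z' : Fin 2 → Matrix m m ℂ) (h2 : Dom Z' (we (1 : ℂ)))
    (H : ∀ (x : Fin 2 → Matrix m m ℂ) (S A : Matrix m m ℂ), Ev x s S →
      IsUnit (aeval S f.denom) → Ev x (ee (1 : ℂ)) A → A * aeval S f.denom = aeval S f.num) :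
    ∃ a b c d : ℂ, a * d - b * c ≠ 0 ∧
      f = (RatFunc.C a * RatFunc.X + RatFunc.C b) / (RatFunc.C c * RatFunc.X + RatFunc.C d) := by
  obtain ⟨hij, x1, y1, k1, d1⟩ := hb
  obtain ⟨W, w1, w2⟩ := join1 h1 h2
  obtain ⟨l0, s0, hs0, x0, y0, d0, k0⟩ := stdpt hij _ W w1 w2
  have eF : ∀ (l s c : ℂ), (evalRingHom c).mapMatrix (TT i j (C l) (C s) (ln x0 x1) (ln y0 y1)) =
      TT i j l s ((evalRingHom c).mapMatrix (ln x0 x1)) ((evalRingHom c).mapMatrix (ln y0 y1)) := by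
    intro l s c
    rw [TT_map]; simp only [coe_evalRingHom, eval_C]
  have e1 : ∀ c : ℂ, (fun t => (evalRingHom c).mapMatrix
      (![ln x0 x1, TT i j (C l0) (C s0) (ln x0 x1) (ln y0 y1)] t)) =
      ![(evalRingHom c).mapMatrix (ln x0 x1), TT i j l0 s0 ((evalRingHom c).mapMatrix (ln x0 x1))
        ((evalRingHom c).mapMatrix (ln y0 y1))] := by
    intro c; funext t; fin_cases t
    · rfl
    · exact eF _ _ _
  have e2 : ∀ c : ℂ, (fun t => (evalRingHom c).mapMatrix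
      (![ln x0 x1, TT i j (C 0) (C 1) (ln x0 x1) (ln y0 y1), (C : ℂ →+* ℂ[X]).mapMatrix
        (single i i 1 - (0 : ℂ) • (1 : Matrix m m ℂ))] t)) =
      ![(evalRingHom c).mapMatrix (ln x0 x1), TT i j 0 1 ((evalRingHom c).mapMatrix (ln x0 x1))
        ((evalRingHom c).mapMatrix (ln y0 y1)), single i i 1 - (0 : ℂ) • (1 : Matrix m m ℂ)] := by
    intro c; funext t; fin_cases t
    · rfl
    · exact eF _ _ _
    · exact evC _ _
  obtain ⟨c, j1, j2⟩ := join ![ln x0 x1, TT i j (C l0) (C s0) (ln x0 x1) (ln y0 y1)]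
    ![ln x0 x1, TT i j (C 0) (C 1) (ln x0 x1) (ln y0 y1), (C : ℂ →+* ℂ[X]).mapMatrix
        (single i i 1 - (0 : ℂ) • (1 : Matrix m m ℂ))] (0 : ℂ) (1 : ℂ)
    (s := Ex.add s (Ex.inv d)) (s' := ze (1 : ℂ))
    (by rw [e1, ln0, ln0, TT_fix k0]; exact d0) (by rw [e2, ln1, ln1, TT_fix k1]; exact d1)
  rw [e1] at j1
  rw [e2] at j2
  generalize (evalRingHom c).mapMatrix (ln x0 x1) = x at j1 j2
  generalize (evalRingHom c).mapMatrix (ln y0 y1) = y at j1 j2
  obtain ⟨N, hN, hz⟩ := fam i j x y j2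
  let Ξ : Fin 2 → Matrix m m RR := ![am x, TT i j (ι X) om (am x) (am y)]
  have e : ∀ (l s : ℂ) (h : s * s = l ^ 3 + 1), (fun t => (evp l s h).mapMatrix (Ξ t)) =
      ![x, TT i j l s x y] := by
    intro l s h
    funext t
    fin_cases t
    · exact ev_am l s h x
    · exact ev_TT i j l s h x y
  rw [← e l0 s0 hs0] at j1
  obtain ⟨⟨B1, b1⟩, ⟨B2, b2⟩⟩ := dom_add.mp j1
  obtain ⟨r, S, r0, hS⟩ := rat2 Ξ _ (evp_c l0 s0 hs0) b1
  obtain ⟨r', S', r0', hS'⟩ := rat2 Ξ _ (evp_c l0 s0 hs0) b2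
  obtain ⟨N', hN', hz'⟩ := gen r' (by rintro rfl; simp at r0')
  apply mob2 (S i i) r (by rintro rfl; simp at r0) f (N * N') (mul_ne_zero hN hN')
  intro l t ht hl hr
  rw [eval_mul] at hl
  have a1 := hS _ (evp_c l t ht) hr
  have a2 := hS' _ (evp_c l t ht) (hz' l t ht (right_ne_zero_of_mul hl))
  rw [e] at a1 a2
  obtain ⟨ci, a3, a4⟩ := hz l t ht (left_ne_zero_of_mul hl)
  set T := (evp l t ht r)⁻¹ • (evp l t ht).mapMatrix S with hT
  have a5 : IsUnit (aeval T f.denom) := (dom_inv (hd _ _ a1)).mp ⟨_, a2⟩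
  have a6 := H _ _ _ a1 a5 (ev_ee (1 : ℂ) ![x, TT i j l t x y] ci a3)
  rw [map_one] at a6
  have a7 := (kk_eig ht (TT_ker hij l t x y) a3).2
  change aa 1 x (TT i j l t x y) ci * _ = _ at a6
  generalize aa 1 x (TT i j l t x y) ci = A at a4 a6 a7
  have cm : ∀ q : ℂ[X], T * aeval T q = aeval T q * T := by
    intro q
    have := congrArg (aeval T) (mul_comm X q)
    rwa [map_mul, map_mul, aeval_X] at this
  have a8 : A * T = T * A := by
    apply a5.mul_right_cancel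
    rw [mul_assoc, cm, ← mul_assoc, a6, mul_assoc, a6, cm]
  have a9 := eig_uniq a4 a7 (v := T *ᵥ Pi.single i 1) (by
    rw [mulVec_mulVec, a8, ← mulVec_mulVec, a7, mulVec_smul])
  have b3 := congrArg (fun M => (M *ᵥ Pi.single i 1) i) a6
  simp only [← mulVec_mulVec, aeval_vec a9, mulVec_smul, a7, Pi.smul_apply, Pi.single_eq_same,
    smul_eq_mul, mul_one] at b3
  have b4 : (T *ᵥ Pi.single i 1) i = evp l t ht (S i i) / evp l t ht r := by
    rw [mulVec_single_one, col_apply, hT, div_eq_inv_mul]; rfl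
  rw [b4] at b3
  rw [← b3, mul_comm]

lemma pt {i j : m} {l s : ℂ} (hs : s * s = l ^ 3 + 1) (h0 : s ≠ 0)
    {x y ci : Matrix m m ℂ} (k : KK l s x y (Pi.single i 1) (Pi.single j 1))
    (h1 : cc x y * ci = 1) (h2 : IsUnit (aa 1 x y ci + (single i i 1 - l • (1 : Matrix m m ℂ)))) :
    (aa 1 x y ci - l • (1 : Matrix m m ℂ)).det = 0 ∧ (BB l (-s) x y).det ≠ 0 := by
  obtain ⟨e1, e2⟩ := kk_eig hs k h1
  constructor
  · apply exists_mulVec_eq_zero_iff.mp
    refine ⟨Pi.single i 1, by simp, ?_⟩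
    rw [sub_mulVec, e2, smul_mulVec, one_mulVec, sub_self]
  · intro hd
    obtain ⟨u, hu, hu0⟩ := exists_mulVec_eq_zero_iff.mpr hd
    rw [← Sum.elim_comp_inl_inr u] at hu hu0
    have kk := (kk_iff ..).mp hu0
    obtain ⟨e3, e4⟩ := kk_eig (u := 1) (by rw [← hs]; ring) kk h1
    have e5 := eig_uniq h2 e2 e4
    generalize u ∘ Sum.inl = v at *
    generalize u ∘ Sum.inr = w at *
    generalize v i = c at e5
    subst e5
    rw [mulVec_smul, e1] at e3
    subst e3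
    have k1 := k.1
    have k2 := kk.1
    rw [mulVec_smul, mulVec_smul, k1] at k2
    have k3 := congrFun k2 i
    simp only [Pi.smul_apply, Pi.sub_apply, smul_eq_mul, Pi.single_eq_same, mul_one] at k3
    have : c = 0 := by
      have : (2 * s) * c = 0 := by linear_combination -k3
      exact (mul_eq_zero.mp this).resolve_left (mul_ne_zero two_ne_zero h0)
    subst this
    simp at hu

lemma red {i j : m} (hb : Base m i j) (L : ℂ → Set (Fin 2 × m × m → ℂ))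
    (h1 : ∀ l z A, Ev (fun t => of fun a b => z (t, a, b)) (ee (1 : ℂ)) A →
      (z ∈ L l ↔ (A - l • (1 : Matrix m m ℂ)).det = 0)) (Λ : Finset ℂ) :
    ∃ l ∉ Λ, (L l).Nonempty ∧ ¬ (MvPolynomial.vanishingIdeal ℂ (L l)).IsPrime := by
  obtain ⟨hij, x, y, k1, d1⟩ := hb
  rw [← TT_fix k1] at d1
  obtain ⟨N, hN, hz⟩ := fam i j x y d1
  have hp : (∏ a ∈ Λ, (X - C a) : ℂ[X]) ≠ 0 :=
    Finset.prod_ne_zero_iff.mpr fun a _ => X_sub_C_ne_zero a
  obtain ⟨l, s, hs, hl⟩ := ex_pt (N * (X ^ 3 + C 1) * ∏ a ∈ Λ, (X - C a))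
    (mul_ne_zero (mul_ne_zero hN (X_pow_add_C_ne_zero (by norm_num) _)) hp)
  rw [eval_mul, eval_mul] at hl
  have l1 := left_ne_zero_of_mul (left_ne_zero_of_mul hl)
  have l2 := right_ne_zero_of_mul (left_ne_zero_of_mul hl)
  have l3 := right_ne_zero_of_mul hl
  have s0 : s ≠ 0 := by
    rintro rfl
    apply l2
    simp only [eval_add, eval_pow, eval_X, eval_C]
    rw [← hs, mul_zero]
  have hΛ : l ∉ Λ := by
    intro h
    apply l3
    rw [eval_prod]
    exact Finset.prod_eq_zero h (by simp)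
  let G : Fin 2 → Matrix m m (MvPolynomial (Fin 2 × m × m) ℂ) :=
    fun t => of fun a b => MvPolynomial.X (t, a, b)
  have hG : ∀ (z : Fin 2 × m × m → ℂ) (t : Fin 2), (MvPolynomial.eval z).mapMatrix (G t) =
      of fun a b => z (t, a, b) := by
    intro z t; ext a b; simp [G]
  have hB : ∀ (z : Fin 2 × m × m → ℂ) (w : ℂ), MvPolynomial.aeval z
      (BB (MvPolynomial.C l) (MvPolynomial.C w) (G 0) (G 1)).det =
      (BB l w (of fun a b => z (0, a, b)) (of fun a b => z (1, a, b))).det := by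
    intro z w
    rw [MvPolynomial.aeval_eq_eval, RingHom.map_det, BB_map, hG, hG, MvPolynomial.eval_C,
      MvPolynomial.eval_C]
  have hC : ∀ (z : Fin 2 × m × m → ℂ), MvPolynomial.aeval z (cc (G 0) (G 1)).det =
      (cc (of fun a b => z (0, a, b)) (of fun a b => z (1, a, b))).det := by
    intro z
    rw [MvPolynomial.aeval_eq_eval, RingHom.map_det, cc_map, hG, hG]
  have P : ∀ w : ℂ, w * w = l ^ 3 + 1 → w ≠ 0 → ∃ z ∈ L l,
      MvPolynomial.aeval z (cc (G 0) (G 1)).det ≠ 0 ∧ MvPolynomial.aeval z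
        (BB (MvPolynomial.C l) (MvPolynomial.C (-w)) (G 0) (G 1)).det ≠ 0 := by
    intro w hw w0
    obtain ⟨ci, a1, a2⟩ := hz l w hw l1
    obtain ⟨a3, a4⟩ := pt hw w0 (TT_ker hij l w x y) a1 a2
    refine ⟨fun p => ![x, TT i j l w x y] p.1 p.2.1 p.2.2, ?_, ?_, ?_⟩
    · refine (h1 l (fun p => ![x, TT i j l w x y] p.1 p.2.1 p.2.2) _
        (ev_ee (1 : ℂ) ![x, TT i j l w x y] ci a1)).mpr ?_
      rw [map_one]; exact a3
    · rw [hC]
      exact det_ne_zero_of_right_inverse a1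
    · rw [hB]; exact a4
  obtain ⟨z1, m1, -, n1⟩ := P s hs s0
  obtain ⟨z2, m2, n2, n3⟩ := P (-s) (by rw [← hs]; ring) (neg_ne_zero.mpr s0)
  rw [neg_neg] at n3
  refine ⟨l, hΛ, ⟨z1, m1⟩, fun hP => ?_⟩
  have : (cc (G 0) (G 1)).det * (BB (MvPolynomial.C l) (MvPolynomial.C s) (G 0) (G 1)).det *
      (BB (MvPolynomial.C l) (MvPolynomial.C (-s)) (G 0) (G 1)).det ∈
      MvPolynomial.vanishingIdeal ℂ (L l) := by
    intro z hz
    rw [map_mul, map_mul, hB, hB, hC]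
    set a : Matrix m m ℂ := of fun a b => z (0, a, b) with ha
    set b : Matrix m m ℂ := of fun a b => z (1, a, b) with hb
    by_cases hc : (cc a b).det = 0
    · rw [hc, zero_mul, zero_mul]
    have hci : cc a b * (cc a b)⁻¹ = 1 := mul_nonsing_inv _ (Ne.isUnit hc)
    have e1 := (h1 l z _ (ev_ee (1 : ℂ) _ _ hci)).mp hz
    rw [map_one] at e1
    change (aa 1 a b (cc a b)⁻¹ - _).det = 0 at e1
    have e2 := schur 1 l a b _ hci
    rw [← neg_sub, det_neg, e1, mul_zero, mul_zero] at e2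
    have e3 := (mul_eq_zero.mp e2).resolve_right (left_ne_zero_of_mul_eq_one JJ_sq)
    have e4 := congrArg det (BB_mul 1 l s hs a b)
    rw [det_mul, det_neg, e3, mul_zero] at e4
    rw [mul_assoc, mul_comm (BB l s a b).det, e4, mul_zero]
  rcases hP.mem_or_mem this with h | h
  · have := h z2 m2
    rw [map_mul] at this
    exact mul_ne_zero n2 n3 this
  · exact n1 (h z1 m1)

lemma nodec' (f : RatFunc ℂ) (s : Ex ℂ 2) (n : ℕ) (hn : 0 < n)
    (Z : Fin 2 → Matrix (Fin n) (Fin n) ℂ) (S : Matrix (Fin n) (Fin n) ℂ) (h1 : Ev Z s S)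
    (h2 : IsUnit (aeval S f.denom))
    (H : ∀ (n : ℕ) (x : Fin 2 → Matrix (Fin n) (Fin n) ℂ) (S A : Matrix (Fin n) (Fin n) ℂ),
      Ev x s S → IsUnit (aeval S f.denom) → Ev x (ee (1 : ℂ)) A →
      A * aeval S f.denom = aeval S f.num) :
    ∃ a b c d : ℂ, a * d - b * c ≠ 0 ∧
      f = (RatFunc.C a * RatFunc.X + RatFunc.C b) / (RatFunc.C c * RatFunc.X + RatFunc.C d) := by
  obtain ⟨d, hd⟩ := ex_poly s f.denom
  obtain ⟨i, j, hb⟩ := base n hn
  have h3 : Dom Z (Ex.add s (Ex.inv d)) := dom_add.mpr ⟨⟨_, h1⟩, (dom_inv (hd _ _ _ h1)).mpr h2⟩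
  let φ : Matrix (Fin n) (Fin n) ℂ →+* Matrix (Fin n × Fin 3) (Fin n × Fin 3) ℂ :=
    (blockDiagonalRingHom (Fin n) (Fin 3) ℂ).comp (Pi.constRingHom (Fin 3) _)
  have hφ : ∀ c, φ (algebraMap ℂ _ c) = algebraMap ℂ _ c := by
    intro c
    rw [alg_eq, alg_eq]
    ext ⟨i, a⟩ ⟨j, b⟩
    simp only [φ, RingHom.comp_apply, blockDiagonalRingHom_apply, blockDiagonal_apply,
      Pi.constRingHom_apply, Function.const, Matrix.smul_apply, Matrix.one_apply, Prod.mk.injEq]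
    by_cases h1 : i = j <;> by_cases h2 : a = b <;> simp [h1, h2]
  let ρ := reindexAlgEquiv ℂ ℂ (finProdFinEquiv (m := n) (n := 3))
  let ρ' := reindexAlgEquiv ℂ ℂ ((Equiv.prodComm (Fin 3) (Fin n)).trans finProdFinEquiv)
  obtain ⟨Z', hZ'⟩ := blk3 (Fin n)
  exact nodec hb f s d (hd _) _ (dom_map ρ.toAlgHom.toRingHom ρ.commutes (dom_map φ hφ h3)) _
    (dom_map ρ'.toAlgHom.toRingHom ρ'.commutes hZ') (H _)

lemma nondeg : ∃ (x : Fin 2 → Matrix (Fin 3) (Fin 3) ℂ) (A : Matrix (Fin 3) (Fin 3) ℂ),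
    Ev x (ee (1 : ℂ)) A :=
  ⟨![cz x3, cz y3], _, ev_ee (1 : ℂ) _ (cz c3) (by
    show c' (cz x3) (cz y3) * cz c3 = 1
    rw [← c'_map, ← map_mul, f3, map_one])⟩

end Pool.Agent.H.MP_240e45_ag
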